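import Mathlib

/-!
# Generalized Hénon maps over `ℚ`: basic definitions and two general lemmas
-/

namespace J4H68.Henon

open Polynomial Function

/-- The generalized Hénon map `(x, y) ↦ (y, F(y) - δ x)` on the rational points of the plane. -/
noncomputable def henon (F : ℚ[X]) (δ : ℚ) (P : ℚ × ℚ) : ℚ × ℚ :=
  (P.2, F.eval P.2 - δ * P.1)

theorem henon_injective (F : ℚ[X]) {δ : ℚ} (hδ : δ ≠ 0) : Injective (henon F δ) := by
  rintro ⟨x, y⟩ ⟨x', y'⟩ h
  simp only [henon, Prod.mk.injEq] at h
  obtain ⟨h1, h2⟩ := h
  subst h1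
  have h3 : δ * x = δ * x' := by linarith
  exact Prod.ext (mul_left_cancel₀ hδ h3) rfl

/-- A point of a finite invariant set of an injective map is periodic. -/
theorem mem_periodicPts_of_finite {α : Type*} {f : α → α} (hf : Injective f) {T : Set α}
    (hT : T.Finite) (hm : Set.MapsTo f T T) {x : α} (hx : x ∈ T) : x ∈ periodicPts f := by
  have h1 : ∀ n : ℕ, f^[n] x ∈ T := fun n => hm.iterate n hx
  obtain ⟨m, -, n, -, hlt, he⟩ := (Set.infinite_univ (α := ℕ)).exists_lt_map_eq_of_mapsTo
    (f := fun n => f^[n] x) (t := T) (fun n _ => h1 n) hT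
  exact mk_mem_periodicPts (by omega) (iterate_cancel hf he.symm)

/-- If a periodic orbit contains the members of a finite set, then its length is at least the
number of elements of the set. -/
theorem card_le_minimalPeriod {α : Type*} [DecidableEq α] {f : α → α} {x : α}
    (hx : x ∈ periodicPts f) (S : Finset α) (hS : ∀ y ∈ S, ∃ n : ℕ, f^[n] x = y) :
    S.card ≤ minimalPeriod f x := by
  have hpos := minimalPeriod_pos_of_mem_periodicPts hx
  have hsub : S ⊆ (Finset.range (minimalPeriod f x)).image (fun n => f^[n] x) := by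
    intro y hy
    obtain ⟨n, hn⟩ := hS y hy
    rw [Finset.mem_image]
    refine ⟨n % minimalPeriod f x, Finset.mem_range.2 (Nat.mod_lt _ hpos), ?_⟩
    rw [iterate_mod_minimalPeriod_eq]
    exact hn
  calc S.card ≤ _ := Finset.card_le_card hsub
    _ ≤ (Finset.range (minimalPeriod f x)).card := Finset.card_image_le
    _ = _ := Finset.card_range _

end J4H68.Henon
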