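import Pool.Agent.J4H68.Henon.Basic

/-!
# A Hénon map of degree `d` over `ℚ` with more than `(d + 2) ^ 2` rational periodic points
-/

namespace J4H68.Henon

open Polynomial Function

/-- The polynomial `X (X - 1) ⋯ (X - d + 1) / d! + d - 1`. -/
noncomputable def Fd (d : ℕ) : ℚ[X] :=
  C ((d.factorial : ℚ)⁻¹) * descPochhammer ℚ d + C ((d : ℚ) - 1)

theorem Fd_natDegree (d : ℕ) : (Fd d).natDegree = d := by
  have h : ((d.factorial : ℚ)⁻¹) ≠ 0 := inv_ne_zero (by exact_mod_cast d.factorial_ne_zero)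
  rw [Fd, natDegree_add_C, natDegree_C_mul h, descPochhammer_natDegree]

theorem Fd_eval (d : ℕ) (y : ℚ) :
    (Fd d).eval y = ((d.factorial : ℚ)⁻¹) * (descPochhammer ℚ d).eval y + ((d : ℚ) - 1) := by
  simp [Fd]

theorem Fd_nat (d y : ℕ) (hy : y < d) : (Fd d).eval (y : ℚ) = (d : ℚ) - 1 := by
  rw [Fd_eval, descPochhammer_eval_eq_descFactorial, Nat.descFactorial_of_lt hy]
  simp

theorem Fd_d (d : ℕ) : (Fd d).eval (d : ℚ) = (d : ℚ) := by
  have h : ((d.factorial : ℚ)) ≠ 0 := (by exact_mod_cast d.factorial_ne_zero)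
  rw [Fd_eval, descPochhammer_eval_eq_descFactorial, Nat.descFactorial_self]
  field_simp
  ring

theorem Fd_d1 (d : ℕ) : (Fd d).eval ((d : ℚ) + 1) = 2 * (d : ℚ) := by
  have h : ((d.factorial : ℚ)) ≠ 0 := (by exact_mod_cast d.factorial_ne_zero)
  have h2 : ((d : ℚ) + 1) = ((d + 1 : ℕ) : ℚ) := by push_cast; ring
  have h3 : (d + 1).descFactorial d = (d + 1) * d.factorial := by
    have := Nat.factorial_mul_descFactorial (n := d + 1) (k := d) (by omega)
    simpa [Nat.factorial_succ] using this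
  rw [Fd_eval, h2, descPochhammer_eval_eq_descFactorial, h3]
  push_cast
  field_simp
  ring

theorem desc_neg1 (d : ℕ) : (descPochhammer ℚ d).eval (-1) = (-1) ^ d * d.factorial := by
  induction d with
  | zero => simp
  | succ n ih =>
    rw [descPochhammer_succ_eval, ih, Nat.factorial_succ]
    push_cast
    ring

theorem desc_neg2 (d : ℕ) : (descPochhammer ℚ d).eval (-2) = (-1) ^ d * (d + 1).factorial := by
  induction d with
  | zero => simp
  | succ n ih =>
    rw [descPochhammer_succ_eval, ih, Nat.factorial_succ (n + 1)]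
    push_cast
    ring

theorem Fd_neg1 (d : ℕ) : (Fd d).eval (-1) = (-1) ^ d + ((d : ℚ) - 1) := by
  have h : ((d.factorial : ℚ)) ≠ 0 := (by exact_mod_cast d.factorial_ne_zero)
  rw [Fd_eval, desc_neg1]
  field_simp

theorem Fd_neg2 (d : ℕ) : (Fd d).eval (-2) = (-1) ^ d * ((d : ℚ) + 1) + ((d : ℚ) - 1) := by
  have h : ((d.factorial : ℚ)) ≠ 0 := (by exact_mod_cast d.factorial_ne_zero)
  rw [Fd_eval, desc_neg2, Nat.factorial_succ]
  push_cast
  field_simp

/-- The points with integral coordinates. -/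
def emb (P : ℤ × ℤ) : ℚ × ℚ := ((P.1 : ℚ), (P.2 : ℚ))

theorem emb_injective : Injective emb := by
  rintro ⟨a, b⟩ ⟨c, d⟩ h
  simp only [emb, Prod.mk.injEq, Int.cast_inj] at h
  exact Prod.ext h.1 h.2

theorem Fd_int (d : ℕ) (y : ℤ) (h0 : 0 ≤ y) (hy : y < d) :
    (Fd d).eval (y : ℚ) = (d : ℚ) - 1 := by
  obtain ⟨n, rfl⟩ := Int.eq_ofNat_of_zero_le h0
  have := Fd_nat d n (by omega)
  simpa using this

/-- A finite set of integral points which is invariant consists of periodic points. -/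
theorem card_le_encard (F : ℚ[X]) {δ : ℚ} (hδ : δ ≠ 0) (T : Finset (ℤ × ℤ))
    (hT : ∀ P ∈ T, ∃ Q ∈ T, henon F δ (emb P) = emb Q) :
    ((T.card : ℕ) : ℕ∞) ≤ (periodicPts (henon F δ)).encard := by
  classical
  have hsub : ((T.image emb : Finset (ℚ × ℚ)) : Set (ℚ × ℚ)) ⊆ periodicPts (henon F δ) := by
    intro x hx
    refine mem_periodicPts_of_finite (henon_injective F hδ) (T.image emb).finite_toSet ?_ hx
    intro z hz
    simp only [Finset.coe_image, Set.mem_image, Finset.mem_coe] at hz ⊢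
    obtain ⟨P, hP, rfl⟩ := hz
    obtain ⟨Q, hQ, h⟩ := hT P hP
    exact ⟨Q, hQ, h.symm⟩
  calc ((T.card : ℕ) : ℕ∞) = (((T.image emb).card : ℕ) : ℕ∞) := by
        rw [Finset.card_image_of_injective _ emb_injective]
    _ = ((T.image emb : Finset (ℚ × ℚ)) : Set (ℚ × ℚ)).encard := by
        rw [Set.encard_coe_eq_coe_finsetCard]
    _ ≤ _ := Set.encard_le_encard hsub

theorem henon_emb (F : ℚ[X]) (x y a : ℤ) (h : F.eval (y : ℚ) = (a : ℚ)) :
    henon F 1 (emb (x, y)) = emb (y, a - x) := by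
  simp [henon, emb, h]

theorem count_even (d : ℕ) (hd : 2 ≤ d) (he : Even d) :
    (((d + 2) ^ 2 + 1 : ℕ) : ℕ∞) ≤ (periodicPts (henon (Fd d) 1)).encard := by
  classical
  set T : Finset (ℤ × ℤ) :=
    ((Finset.Icc (-1 : ℤ) d ×ˢ Finset.Icc (-1 : ℤ) d).erase (-1, -1)) ∪
      {((d : ℤ), (d : ℤ) + 1), ((d : ℤ) + 1, (d : ℤ))} with hTdef
  have hcard : T.card = (d + 2) ^ 2 + 1 := by
    rw [hTdef, Finset.card_union_of_disjoint, Finset.card_erase_of_mem, Finset.card_product,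
      Finset.card_pair]
    · simp only [Int.card_Icc]
      have : ((d : ℤ) + 1 - -1).toNat = d + 2 := by omega
      rw [this]
      have h1 : 1 ≤ (d + 2) * (d + 2) := Nat.mul_pos (by omega) (by omega)
      have h2 : (d + 2) ^ 2 = (d + 2) * (d + 2) := by ring
      omega
    · simp
    · simp
    · rw [Finset.disjoint_left]
      rintro ⟨x, y⟩ h1 h2
      simp only [Finset.mem_erase, Finset.mem_product, Finset.mem_Icc, Finset.mem_insert,
        Finset.mem_singleton, Prod.mk.injEq] at h1 h2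
      omega
  rw [← hcard]
  have hm1 : ((-1 : ℚ)) ^ d = 1 := he.neg_one_pow
  refine card_le_encard _ one_ne_zero T ?_
  rintro ⟨x, y⟩ hP
  have hP' : ((-1 ≤ x ∧ x ≤ d ∧ -1 ≤ y ∧ y ≤ d ∧ ¬ (x = -1 ∧ y = -1)) ∨
      (x = d ∧ y = d + 1) ∨ (x = d + 1 ∧ y = d)) := by
    simp only [hTdef, Finset.mem_union, Finset.mem_erase, Finset.mem_product, Finset.mem_Icc,
      Finset.mem_insert, Finset.mem_singleton, Prod.mk.injEq, ne_eq] at hP
    omega
  have hQ : ∀ a b : ℤ, ((-1 ≤ a ∧ a ≤ d ∧ -1 ≤ b ∧ b ≤ d ∧ ¬ (a = -1 ∧ b = -1)) ∨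
      (a = d ∧ b = d + 1) ∨ (a = d + 1 ∧ b = d)) → (a, b) ∈ T := by
    intro a b h
    simp only [hTdef, Finset.mem_union, Finset.mem_erase, Finset.mem_product, Finset.mem_Icc,
      Finset.mem_insert, Finset.mem_singleton, Prod.mk.injEq, ne_eq]
    omega
  by_cases h1 : y = -1
  · subst h1
    refine ⟨(-1, d - x), hQ _ _ (by omega), ?_⟩
    apply henon_emb
    push_cast
    rw [Fd_neg1, hm1]
    ring
  by_cases h2 : y < d
  · refine ⟨(y, (d - 1 : ℤ) - x), hQ _ _ (by omega), ?_⟩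
    apply henon_emb
    rw [Fd_int d y (by omega) h2]
    push_cast
    ring
  by_cases h3 : y = d
  · subst h3
    refine ⟨(d, (d : ℤ) - x), hQ _ _ (by omega), ?_⟩
    apply henon_emb
    have := Fd_d d
    push_cast
    exact this
  · have h4 : y = d + 1 ∧ x = d := by omega
    obtain ⟨rfl, rfl⟩ := h4
    refine ⟨((d : ℤ) + 1, (2 * d : ℤ) - d), hQ _ _ (by omega), ?_⟩
    apply henon_emb
    have := Fd_d1 d
    push_cast
    exact this

theorem count_odd (d : ℕ) (hd : 2 ≤ d) (he : Odd d) :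
    (((d + 2) ^ 2 + 4 : ℕ) : ℕ∞) ≤ (periodicPts (henon (Fd d) 1)).encard := by
  classical
  set T : Finset (ℤ × ℤ) :=
    ((Finset.Icc (-1 : ℤ) d ×ˢ Finset.Icc (-1 : ℤ) d)) ∪
      {((d : ℤ), (d : ℤ) + 1), ((d : ℤ) + 1, (d : ℤ)), (-1, -2), (-2, -1)} with hTdef
  have hcard : T.card = (d + 2) ^ 2 + 4 := by
    rw [hTdef, Finset.card_union_of_disjoint, Finset.card_product,
      Finset.card_insert_of_notMem, Finset.card_insert_of_notMem, Finset.card_pair]
    · simp only [Int.card_Icc]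
      have : ((d : ℤ) + 1 - -1).toNat = d + 2 := by omega
      rw [this]
      have h2 : (d + 2) ^ 2 = (d + 2) * (d + 2) := by ring
      omega
    · simp
    · simp
    · simp
    · rw [Finset.disjoint_left]
      rintro ⟨x, y⟩ h1 h2
      simp only [Finset.mem_product, Finset.mem_Icc, Finset.mem_insert,
        Finset.mem_singleton, Prod.mk.injEq] at h1 h2
      omega
  rw [← hcard]
  have hm1 : ((-1 : ℚ)) ^ d = -1 := he.neg_one_pow
  refine card_le_encard _ one_ne_zero T ?_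
  rintro ⟨x, y⟩ hP
  have hP' : ((-1 ≤ x ∧ x ≤ d ∧ -1 ≤ y ∧ y ≤ d) ∨
      (x = d ∧ y = d + 1) ∨ (x = d + 1 ∧ y = d) ∨ (x = -1 ∧ y = -2) ∨ (x = -2 ∧ y = -1)) := by
    simp only [hTdef, Finset.mem_union, Finset.mem_product, Finset.mem_Icc,
      Finset.mem_insert, Finset.mem_singleton, Prod.mk.injEq] at hP
    omega
  have hQ : ∀ a b : ℤ, ((-1 ≤ a ∧ a ≤ d ∧ -1 ≤ b ∧ b ≤ d) ∨
      (a = d ∧ b = d + 1) ∨ (a = d + 1 ∧ b = d) ∨ (a = -1 ∧ b = -2) ∨ (a = -2 ∧ b = -1)) →
      (a, b) ∈ T := by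
    intro a b h
    simp only [hTdef, Finset.mem_union, Finset.mem_product, Finset.mem_Icc,
      Finset.mem_insert, Finset.mem_singleton, Prod.mk.injEq]
    omega
  by_cases h0 : y = -2
  · subst h0
    have hx : x = -1 := by omega
    subst hx
    refine ⟨(-2, (-2 : ℤ) - (-1)), hQ _ _ (by omega), ?_⟩
    apply henon_emb
    push_cast
    rw [Fd_neg2, hm1]
    ring
  by_cases h1 : y = -1
  · subst h1
    refine ⟨(-1, (d - 2 : ℤ) - x), hQ _ _ (by omega), ?_⟩
    apply henon_emb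
    push_cast
    rw [Fd_neg1, hm1]
    ring
  by_cases h2 : y < d
  · refine ⟨(y, (d - 1 : ℤ) - x), hQ _ _ (by omega), ?_⟩
    apply henon_emb
    rw [Fd_int d y (by omega) h2]
    push_cast
    ring
  by_cases h3 : y = d
  · subst h3
    refine ⟨(d, (d : ℤ) - x), hQ _ _ (by omega), ?_⟩
    apply henon_emb
    have := Fd_d d
    push_cast
    exact this
  · have h4 : y = d + 1 ∧ x = d := by omega
    obtain ⟨rfl, rfl⟩ := h4
    refine ⟨((d : ℤ) + 1, (2 * d : ℤ) - d), hQ _ _ (by omega), ?_⟩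
    apply henon_emb
    have := Fd_d1 d
    push_cast
    exact this

end J4H68.Henon
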