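import Pool.Agent.J4H68.Henon.Count

/-!
# A long cycle of a map `(u, v) ↦ (v, g(v) - u)` of the integral points (the snake)
-/

namespace J4H68.Henon

open Function

/-- The values of the polynomial at the integers of `[-h, h]`, `h = W + 1 + K`. -/
def g (W K : ℕ) (u : ℤ) : ℤ :=
  if u = W + 1 + K ∨ (-(W : ℤ) ≤ u ∧ u ≤ W ∧ (2 : ℤ) ∣ u - W) then 0 else -1

theorem g_zero {W K : ℕ} {u : ℤ}
    (h : u = W + 1 + K ∨ (-(W : ℤ) ≤ u ∧ u ≤ W ∧ (2 : ℤ) ∣ u - W)) : g W K u = 0 := if_pos h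

theorem g_neg {W K : ℕ} {u : ℤ}
    (h : ¬ (u = W + 1 + K ∨ (-(W : ℤ) ≤ u ∧ u ≤ W ∧ (2 : ℤ) ∣ u - W))) : g W K u = -1 := if_neg h

/-- The map on integral points. -/
def phi (W K : ℕ) (P : ℤ × ℤ) : ℤ × ℤ := (P.2, g W K P.2 - P.1)

theorem phi_injective (W K : ℕ) : Injective (phi W K) := by
  rintro ⟨a, b⟩ ⟨c, d⟩ h
  simp only [phi, Prod.mk.injEq] at h
  obtain ⟨rfl, h2⟩ := h
  exact Prod.ext (by simp only; omega) rfl

/-- The finite invariant set. -/
def InT (W K : ℕ) (P : ℤ × ℤ) : Prop :=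
  -((W : ℤ) + 1 + K) ≤ P.1 ∧ P.1 ≤ (W : ℤ) + 1 + K ∧ -((W : ℤ) + 1 + K) ≤ P.2 ∧
    P.2 ≤ (W : ℤ) + 1 + K ∧
    (P.1 = (W : ℤ) + 1 + K → (-(W : ℤ) ≤ P.2 ∧ P.2 ≤ W ∧ (2 : ℤ) ∣ P.2 - W)) ∧
    (P.2 = (W : ℤ) + 1 + K → (-(W : ℤ) ≤ P.1 ∧ P.1 ≤ W ∧ (2 : ℤ) ∣ P.1 - W))

theorem InT_phi (W K : ℕ) (P : ℤ × ℤ) (h : InT W K P) : InT W K (phi W K P) := by
  obtain ⟨u, v⟩ := P
  obtain ⟨h1, h2, h3, h4, h5, h6⟩ := h
  simp only at h1 h2 h3 h4 h5 h6
  unfold InT phi
  simp only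
  by_cases hv : v = W + 1 + K ∨ (-(W : ℤ) ≤ v ∧ v ≤ W ∧ (2 : ℤ) ∣ v - W)
  · rw [g_zero hv]
    refine ⟨by omega, by omega, by omega, by omega, ?_, ?_⟩ <;> omega
  · rw [g_neg hv]
    refine ⟨by omega, by omega, by omega, by omega, ?_, ?_⟩ <;> omega

/-- The snake. -/
def gam (W K j i : ℕ) : ℤ × ℤ :=
  if i < K then ((W : ℤ) + 1 + i, -(W : ℤ) - 1 + 2 * j)
  else if i ≤ 2 * K then ((W : ℤ) + 1 + 2 * K - i, -(W : ℤ) + 2 * j)
  else ((W : ℤ), -(W : ℤ) + 2 * j + 1)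

theorem four {W K : ℕ} (u v a b c e : ℤ) (h1 : g W K v = a) (h2 : g W K (a - u) = b)
    (h3 : g W K (b - v) = c) (h4 : g W K (c - (a - u)) = e) :
    (phi W K)^[4] (u, v) = (c - (a - u), e - (b - v)) := by
  simp only [iterate_succ, iterate_zero, comp_apply, phi, id_eq, h1, h2, h3, h4]

theorem step1 (W K j i : ℕ) (hK : 1 ≤ K) (hj : j ≤ W) (hi : i ≤ 2 * K) :
    (phi W K)^[4] (gam W K j i) = gam W K j (i + 1) := by
  by_cases h1 : i + 1 < K
  · have e1 : gam W K j i = ((W : ℤ) + 1 + i, -(W : ℤ) - 1 + 2 * j) := by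
      unfold gam; rw [if_pos (by omega)]
    have e2 : gam W K j (i + 1) = ((W : ℤ) + 1 + (i + 1), -(W : ℤ) - 1 + 2 * j) := by
      unfold gam; rw [if_pos (by omega)]; push_cast; rfl
    rw [e1, e2, four _ _ (-1) (-1) 0 (-1) (g_neg (by omega)) (g_neg (by omega)) (g_zero (by omega))
      (g_neg (by omega))]
    ext <;> simp only <;> ring
  by_cases h2 : i + 1 = K
  · have e1 : gam W K j i = ((W : ℤ) + 1 + i, -(W : ℤ) - 1 + 2 * j) := by
      unfold gam; rw [if_pos (by omega)]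
    have e2 : gam W K j (i + 1) = ((W : ℤ) + 1 + K, -(W : ℤ) + 2 * j) := by
      unfold gam; rw [if_neg (by omega), if_pos (by omega)]
      ext <;> simp only <;> omega
    rw [e1, e2, four _ _ (-1) (-1) 0 0 (g_neg (by omega)) (g_neg (by omega)) (g_zero (by omega))
      (g_zero (by omega))]
    ext <;> simp only <;> omega
  by_cases h3 : i < 2 * K
  · have e1 : gam W K j i = ((W : ℤ) + 1 + 2 * K - i, -(W : ℤ) + 2 * j) := by
      unfold gam; rw [if_neg (by omega), if_pos (by omega)]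
    have e2 : gam W K j (i + 1) = ((W : ℤ) + 1 + 2 * K - (i + 1), -(W : ℤ) + 2 * j) := by
      unfold gam; rw [if_neg (by omega), if_pos (by omega)]; push_cast; rfl
    rw [e1, e2, four _ _ 0 (-1) (-1) (-1) (g_zero (by omega)) (g_neg (by omega)) (g_neg (by omega))
      (g_neg (by omega))]
    ext <;> simp only <;> omega
  · have e1 : gam W K j i = ((W : ℤ) + 1, -(W : ℤ) + 2 * j) := by
      unfold gam; rw [if_neg (by omega), if_pos (by omega)]
      ext <;> simp only <;> omega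
    have e2 : gam W K j (i + 1) = ((W : ℤ), -(W : ℤ) + 2 * j + 1) := by
      unfold gam; rw [if_neg (by omega), if_neg (by omega)]
    rw [e1, e2, four _ _ 0 (-1) (-1) 0 (g_zero (by omega)) (g_neg (by omega)) (g_neg (by omega))
      (g_zero (by omega))]
    ext <;> simp only <;> omega

theorem step2 (W K j : ℕ) (hK : 1 ≤ K) (hj : j < W) :
    (phi W K)^[4] (gam W K j (2 * K + 1)) = gam W K (j + 1) 0 := by
  have e1 : gam W K j (2 * K + 1) = ((W : ℤ), -(W : ℤ) + 2 * j + 1) := by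
    unfold gam; rw [if_neg (by omega), if_neg (by omega)]
  have e2 : gam W K (j + 1) 0 = ((W : ℤ) + 1, -(W : ℤ) + 2 * j + 1) := by
    unfold gam; rw [if_pos (by omega)]
    push_cast
    ext <;> simp only <;> ring
  rw [e1, e2, four _ _ (-1) (-1) 0 (-1) (g_neg (by omega)) (g_neg (by omega)) (g_zero (by omega))
      (g_neg (by omega))]
  ext <;> simp only <;> ring

/-- Every point of the snake is reached from its first point. -/
theorem reach (W K : ℕ) (hK : 1 ≤ K) : ∀ j : ℕ, j ≤ W → ∀ i : ℕ, i ≤ 2 * K + 1 →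
    ∃ n : ℕ, (phi W K)^[n] (gam W K 0 0) = gam W K j i := by
  have hin : ∀ j : ℕ, j ≤ W → (∃ n : ℕ, (phi W K)^[n] (gam W K 0 0) = gam W K j 0) →
      ∀ i : ℕ, i ≤ 2 * K + 1 → ∃ n : ℕ, (phi W K)^[n] (gam W K 0 0) = gam W K j i := by
    intro j hj h0 i
    induction i with
    | zero => intro _; exact h0
    | succ i ih =>
      intro hi
      obtain ⟨n, hn⟩ := ih (by omega)
      refine ⟨4 + n, ?_⟩
      rw [iterate_add_apply, hn, step1 W K j i hK hj (by omega)]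
  intro j
  induction j with
  | zero => intro hj; exact hin 0 hj ⟨0, rfl⟩
  | succ j ih =>
    intro hj
    refine hin (j + 1) hj ?_
    obtain ⟨n, hn⟩ := ih (by omega) (2 * K + 1) le_rfl
    refine ⟨4 + n, ?_⟩
    rw [iterate_add_apply, hn, step2 W K j hK (by omega)]

/-- The part of the plane that contains the snake except for its last point. -/
def InA (W K : ℕ) (P : ℤ × ℤ) : Prop :=
  (W : ℤ) ≤ P.1 ∧ P.1 ≤ (W : ℤ) + 1 + K ∧ -(W : ℤ) - 1 ≤ P.2 ∧ P.2 ≤ W ∧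
    (P.1 = W → (-(W : ℤ) + 1 ≤ P.2 ∧ P.2 ≤ (W : ℤ) - 1 ∧ ¬ (2 : ℤ) ∣ P.2 - W))

theorem gam_InA (W K j i : ℕ) (hK : 1 ≤ K) (hj : j ≤ W) (hi : i ≤ 2 * K + 1)
    (hne : ¬ (j = W ∧ i = 2 * K + 1)) : InA W K (gam W K j i) := by
  unfold gam InA
  split_ifs with h1 h2
  · simp only
    refine ⟨by omega, by omega, by omega, by omega, ?_⟩
    intro h; omega
  · simp only
    refine ⟨by omega, by omega, by omega, by omega, ?_⟩
    intro h; omega
  · simp only
    refine ⟨by omega, by omega, by omega, by omega, ?_⟩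
    intro h
    refine ⟨by omega, by omega, by omega⟩

theorem gam_inj (W K j i j' i' : ℕ) (_hK : 1 ≤ K) (hi : i ≤ 2 * K + 1)
    (hi' : i' ≤ 2 * K + 1) (h : gam W K j i = gam W K j' i') : j = j' ∧ i = i' := by
  unfold gam at h
  split_ifs at h <;> (simp only [Prod.mk.injEq] at h; omega)

theorem gam_last (W K : ℕ) : gam W K W (2 * K + 1) = ((W : ℤ), (W : ℤ) + 1) := by
  unfold gam
  rw [if_neg (by omega), if_neg (by omega)]
  ext <;> (simp only; try ring)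

/-- The three images of a point of the region. -/
theorem images (W K : ℕ) (u v : ℤ) (h : InA W K (u, v)) :
    ∃ a b : ℤ, a ≤ -(W : ℤ) - 1 ∧ (b = 0 ∨ b = -1) ∧ (v = -(W : ℤ) - 1 → b = 0) ∧
      (v = -(W : ℤ) - 1 → a = -1 - u) ∧ (a = - u ∨ a = -1 - u) ∧
      (phi W K)^[1] (u, v) = (v, a) ∧
      (phi W K)^[2] (u, v) = (a, -1 - v) ∧ (phi W K)^[3] (u, v) = (-1 - v, b - a) := by
  obtain ⟨h1, h2, h3, h4, h5⟩ := h
  simp only at h1 h2 h3 h4 h5
  have key : ∃ a : ℤ, a ≤ -(W : ℤ) - 1 ∧ g W K v - u = a ∧ (v = -(W : ℤ) - 1 → a = -1 - u) ∧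
      (a = - u ∨ a = -1 - u) := by
    by_cases hv : v = W + 1 + K ∨ (-(W : ℤ) ≤ v ∧ v ≤ W ∧ (2 : ℤ) ∣ v - W)
    · refine ⟨-u, by omega, by rw [g_zero hv]; ring, by omega, Or.inl rfl⟩
    · refine ⟨-1 - u, by omega, by rw [g_neg hv], by omega, Or.inr rfl⟩
  obtain ⟨a, ha, hga, hva, haa⟩ := key
  have hgb : g W K a = -1 := g_neg (by omega)
  have key2 : ∃ b : ℤ, (b = 0 ∨ b = -1) ∧ g W K (-1 - v) = b ∧ (v = -(W : ℤ) - 1 → b = 0) := by
    by_cases hv : (-1 - v) = W + 1 + K ∨ (-(W : ℤ) ≤ (-1 - v) ∧ (-1 - v) ≤ W ∧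
        (2 : ℤ) ∣ (-1 - v) - W)
    · exact ⟨0, Or.inl rfl, g_zero hv, fun _ => rfl⟩
    · refine ⟨-1, Or.inr rfl, g_neg hv, ?_⟩
      intro h; omega
  obtain ⟨b, hb, hgb2, hvb⟩ := key2
  refine ⟨a, b, ha, hb, hvb, hva, haa, ?_, ?_, ?_⟩
  · simp only [iterate_succ, iterate_zero, comp_apply, phi, id_eq, hga]
  · simp only [iterate_succ, iterate_zero, comp_apply, phi, id_eq, hga, hgb]
  · simp only [iterate_succ, iterate_zero, comp_apply, phi, id_eq, hga, hgb, hgb2]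

/-- The images of the region do not meet the region. -/
theorem disj (W K : ℕ) (P Q : ℤ × ℤ) (hP : InA W K P) (hQ : InA W K Q) (c : ℕ) (hc : 1 ≤ c)
    (hc3 : c ≤ 3) : P ≠ (phi W K)^[c] Q := by
  obtain ⟨u, v⟩ := P
  obtain ⟨u', v'⟩ := Q
  obtain ⟨a, b, ha, hb, hvb, hva, haa, e1, e2, e3⟩ := images W K u' v' hQ
  obtain ⟨h1, h2, h3, h4, h5⟩ := hP
  obtain ⟨q1, q2, q3, q4, q5⟩ := hQ
  simp only at h1 h2 h3 h4 h5 q1 q2 q3 q4 q5
  intro he
  have hc' : c = 1 ∨ c = 2 ∨ c = 3 := by omega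
  rcases hc' with rfl | rfl | rfl
  · rw [e1, Prod.mk.injEq] at he
    omega
  · rw [e2, Prod.mk.injEq] at he
    omega
  · rw [e3, Prod.mk.injEq] at he
    omega

/-- The last point of the snake is different from the first four images of the region. -/
theorem last_ne (W K : ℕ) (Q : ℤ × ℤ) (hQ : InA W K Q) (c : ℕ)
    (hc3 : c ≤ 3) : ((W : ℤ), (W : ℤ) + 1) ≠ (phi W K)^[c] Q := by
  obtain ⟨u', v'⟩ := Q
  obtain ⟨a, b, ha, hb, hvb, hva, haa, e1, e2, e3⟩ := images W K u' v' hQ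
  obtain ⟨q1, q2, q3, q4, q5⟩ := hQ
  simp only at q1 q2 q3 q4 q5
  intro he
  have hc' : c = 0 ∨ c = 1 ∨ c = 2 ∨ c = 3 := by omega
  rcases hc' with rfl | rfl | rfl | rfl
  · simp only [iterate_zero, id_eq, Prod.mk.injEq] at he
    omega
  · rw [e1, Prod.mk.injEq] at he
    omega
  · rw [e2, Prod.mk.injEq] at he
    omega
  · rw [e3, Prod.mk.injEq] at he
    omega

/-- There are many points in the orbit of the first point of the snake. -/
theorem exists_finset (W K : ℕ) (hK : 1 ≤ K) :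
    ∃ S : Finset (ℤ × ℤ), S.card = 4 * ((W + 1) * (2 * K + 2) - 1) + 1 ∧
      ∀ Q ∈ S, ∃ n : ℕ, (phi W K)^[n] (gam W K 0 0) = Q := by
  classical
  set I : Finset (ℕ × ℕ) := (Finset.range (W + 1) ×ˢ Finset.range (2 * K + 2)).erase
    (W, 2 * K + 1) with hI
  have hIcard : I.card = (W + 1) * (2 * K + 2) - 1 := by
    rw [hI, Finset.card_erase_of_mem (by simp), Finset.card_product]
    simp
  have hmem : ∀ p ∈ I, p.1 ≤ W ∧ p.2 ≤ 2 * K + 1 ∧ ¬ (p.1 = W ∧ p.2 = 2 * K + 1) := by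
    rintro ⟨j, i⟩ hp
    simp only [hI, Finset.mem_erase, ne_eq, Prod.mk.injEq, Finset.mem_product,
      Finset.mem_range] at hp
    refine ⟨by simp only; omega, by simp only; omega, by simp only; omega⟩
  set S1 : Finset (ℤ × ℤ) := (Finset.range 4 ×ˢ I).image
    (fun p => (phi W K)^[p.1] (gam W K p.2.1 p.2.2)) with hS1
  have hcard1 : S1.card = 4 * ((W + 1) * (2 * K + 2) - 1) := by
    rw [hS1, Finset.card_image_of_injOn, Finset.card_product, Finset.card_range, hIcard]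
    have main : ∀ c c' : ℕ, c ≤ c' → c' ≤ 3 → ∀ p ∈ I, ∀ p' ∈ I,
        (phi W K)^[c] (gam W K p.1 p.2) = (phi W K)^[c'] (gam W K p'.1 p'.2) →
        c = c' ∧ p = p' := by
      intro c c' hcc hc' p hp p' hp' he
      obtain ⟨h1, h2, h3⟩ := hmem p hp
      obtain ⟨h1', h2', h3'⟩ := hmem p' hp'
      have e2 : (phi W K)^[c'] (gam W K p'.1 p'.2) =
          (phi W K)^[c] ((phi W K)^[c' - c] (gam W K p'.1 p'.2)) := by
        rw [← iterate_add_apply]
        congr 2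
        omega
      rw [e2] at he
      have he2 := (phi_injective W K).iterate c he
      by_cases hlt : c = c'
      · subst hlt
        refine ⟨rfl, ?_⟩
        simp only [Nat.sub_self, iterate_zero, id_eq] at he2
        obtain ⟨a1, a2⟩ := gam_inj W K _ _ _ _ hK h2 h2' he2
        exact Prod.ext a1 a2
      · exact absurd he2 (disj W K _ _ (gam_InA W K _ _ hK h1 h2 h3)
          (gam_InA W K _ _ hK h1' h2' h3') (c' - c) (by omega) (by omega))
    rintro ⟨c, p⟩ hp ⟨c', p'⟩ hp' he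
    simp only [Finset.coe_product, Set.mem_prod, Finset.mem_coe, Finset.mem_range] at hp hp'
    simp only at he
    rcases le_total c c' with hcc | hcc
    · obtain ⟨a1, a2⟩ := main c c' hcc (by omega) p hp.2 p' hp'.2 he
      rw [a1, a2]
    · obtain ⟨a1, a2⟩ := main c' c hcc (by omega) p' hp'.2 p hp.2 he.symm
      rw [a1, a2]
  refine ⟨insert ((W : ℤ), (W : ℤ) + 1) S1, ?_, ?_⟩
  · rw [Finset.card_insert_of_notMem, hcard1]
    intro hin
    rw [hS1, Finset.mem_image] at hin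
    obtain ⟨⟨c, p⟩, hp, he⟩ := hin
    simp only [Finset.mem_product, Finset.mem_range] at hp he
    obtain ⟨h1, h2, h3⟩ := hmem p hp.2
    exact last_ne W K _ (gam_InA W K _ _ hK h1 h2 h3) c (by omega) he.symm
  · intro Q hQ
    rw [Finset.mem_insert] at hQ
    rcases hQ with rfl | hQ
    · rw [← gam_last W K]
      exact reach W K hK W le_rfl (2 * K + 1) le_rfl
    · rw [hS1, Finset.mem_image] at hQ
      obtain ⟨⟨c, p⟩, hp, he⟩ := hQ
      simp only [Finset.mem_product, Finset.mem_range] at hp he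
      obtain ⟨h1, h2, h3⟩ := hmem p hp.2
      obtain ⟨n, hn⟩ := reach W K hK p.1 h1 p.2 h2
      refine ⟨c + n, ?_⟩
      rw [iterate_add_apply, hn, he]

end J4H68.Henon
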