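import Pool.Agent.J4H68.Henon.Poly

/-!
# Long rational cycles of Hénon maps
-/

namespace J4H68.Henon

open Polynomial Function

theorem henon_phi (W K : ℕ) (F : ℚ[X])
    (hF : ∀ u : ℤ, -((W : ℤ) + 1 + K) ≤ u → u ≤ (W : ℤ) + 1 + K →
      F.eval (u : ℚ) = (g W K u : ℚ)) (Q : ℤ × ℤ) (hQ : InT W K Q) :
    henon F 1 (emb Q) = emb (phi W K Q) := by
  obtain ⟨u, v⟩ := Q
  obtain ⟨h1, h2, h3, h4, h5, h6⟩ := hQ
  exact henon_emb F u v (g W K v) (hF v h3 h4)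

theorem iterate_phi (W K : ℕ) (F : ℚ[X])
    (hF : ∀ u : ℤ, -((W : ℤ) + 1 + K) ≤ u → u ≤ (W : ℤ) + 1 + K →
      F.eval (u : ℚ) = (g W K u : ℚ)) (Q : ℤ × ℤ) (hQ : InT W K Q) (n : ℕ) :
    (henon F 1)^[n] (emb Q) = emb ((phi W K)^[n] Q) ∧ InT W K ((phi W K)^[n] Q) := by
  induction n with
  | zero => exact ⟨rfl, hQ⟩
  | succ n ih =>
    rw [iterate_succ_apply', iterate_succ_apply', ih.1]
    exact ⟨henon_phi W K F hF _ ih.2, InT_phi W K _ ih.2⟩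

theorem finite_InT (W K : ℕ) : {P : ℤ × ℤ | InT W K P}.Finite := by
  refine Set.Finite.subset (Finset.finite_toSet
    (Finset.Icc (-((W : ℤ) + 1 + K)) ((W : ℤ) + 1 + K) ×ˢ
      Finset.Icc (-((W : ℤ) + 1 + K)) ((W : ℤ) + 1 + K))) ?_
  rintro ⟨u, v⟩ ⟨h1, h2, h3, h4, h5, h6⟩
  simp only at h1 h2 h3 h4
  simp only [Finset.coe_product, Set.mem_prod, Finset.mem_coe, Finset.mem_Icc]
  exact ⟨⟨h1, h2⟩, ⟨h3, h4⟩⟩

theorem cycle_of_values (W K : ℕ) (hK : 1 ≤ K) (F : ℚ[X])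
    (hF : ∀ u : ℤ, -((W : ℤ) + 1 + K) ≤ u → u ≤ (W : ℤ) + 1 + K →
      F.eval (u : ℚ) = (g W K u : ℚ)) :
    ∃ P : ℚ × ℚ, P ∈ periodicPts (henon F 1) ∧
      4 * ((W + 1) * (2 * K + 2) - 1) + 1 ≤ minimalPeriod (henon F 1) P := by
  classical
  have hT0 : InT W K (gam W K 0 0) := by
    unfold gam InT
    rw [if_pos (by omega)]
    simp only
    refine ⟨by omega, by omega, by omega, by omega, by omega, by omega⟩
  obtain ⟨S, hcard, hS⟩ := exists_finset W K hK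
  have hper : emb (gam W K 0 0) ∈ periodicPts (henon F 1) := by
    refine mem_periodicPts_of_finite (henon_injective F one_ne_zero)
      (T := emb '' {P : ℤ × ℤ | InT W K P}) ((finite_InT W K).image _) ?_ ⟨_, hT0, rfl⟩
    rintro _ ⟨Q, hQ, rfl⟩
    exact ⟨phi W K Q, InT_phi W K Q hQ, (henon_phi W K F hF Q hQ).symm⟩
  refine ⟨emb (gam W K 0 0), hper, ?_⟩
  rw [← hcard, ← Finset.card_image_of_injective S emb_injective]
  refine card_le_minimalPeriod hper _ ?_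
  intro y hy
  rw [Finset.mem_image] at hy
  obtain ⟨Q, hQ, rfl⟩ := hy
  obtain ⟨n, hn⟩ := hS Q hQ
  exact ⟨n, by rw [(iterate_phi W K F hF _ hT0 n).1, hn]⟩

theorem exists_poly (W K d : ℕ) (hd : d = 2 * (W + 1 + K) ∨ d = 2 * (W + 1 + K) + 1) :
    ∃ F : ℚ[X], F.natDegree = d ∧ ∀ u : ℤ, -((W : ℤ) + 1 + K) ≤ u → u ≤ (W : ℤ) + 1 + K →
      F.eval (u : ℚ) = (g W K u : ℚ) := by
  rcases hd with rfl | rfl
  · exact ⟨P0 W K, P0_natDegree W K, fun u h1 h2 => P0_eval W K u h1 h2⟩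
  · set s := Finset.Icc (-((W : ℤ) + 1 + K)) ((W : ℤ) + 1 + K) with hs
    refine ⟨P0 W K + Lagrange.nodal s (fun u : ℤ => (u : ℚ)), ?_, ?_⟩
    · have h1 : (Lagrange.nodal s (fun u : ℤ => (u : ℚ))).natDegree =
          2 * (W + 1 + K) + 1 := by
        rw [Lagrange.natDegree_nodal, hs, card_nodes]
      rw [natDegree_add_eq_right_of_natDegree_lt, h1]
      rw [h1, P0_natDegree]
      omega
    · intro u h1 h2
      rw [eval_add, P0_eval W K u h1 h2]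
      have := Lagrange.eval_nodal_at_node (s := s) (v := (fun u : ℤ => (u : ℚ))) (i := u)
        (Finset.mem_Icc.2 ⟨h1, h2⟩)
      rw [this, add_zero]

theorem long_cycle (d : ℕ) (hd : 4 ≤ d) :
    ∃ F : ℚ[X], F.natDegree = d ∧ ∃ P : ℚ × ℚ, P ∈ periodicPts (henon F 1) ∧
      2 * (d / 2 + 1) ^ 2 ≤ minimalPeriod (henon F 1) P + 5 := by
  obtain ⟨h, hh⟩ : ∃ h, h = d / 2 := ⟨_, rfl⟩
  rcases Nat.even_or_odd' h with ⟨p, hp | hp⟩
  · -- h = 2 p : W + 1 = p, K = p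
    have hp1 : 1 ≤ p := by omega
    obtain ⟨q, rfl⟩ : ∃ q, p = q + 1 := ⟨p - 1, by omega⟩
    obtain ⟨F, hF1, hF2⟩ := exists_poly q (q + 1) d (by omega)
    obtain ⟨P, hP1, hP2⟩ := cycle_of_values q (q + 1) (by omega) F hF2
    refine ⟨F, hF1, P, hP1, ?_⟩
    rw [← hh, hp]
    refine le_trans ?_ (Nat.add_le_add_right hP2 5)
    have e1 : (q + 1) * (2 * (q + 1) + 2) = 2 * q * q + 6 * q + 4 := by ring
    have e2 : 2 * (2 * (q + 1) + 1) ^ 2 = 8 * (q * q) + 24 * q + 18 := by ring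
    rw [e1, e2]
    have e3 : 2 * q * q = 2 * (q * q) := by ring
    rw [e3]
    omega
  · -- h = 2 p + 1 : W + 1 = p + 1, K = p
    have hp1 : 1 ≤ p := by omega
    obtain ⟨F, hF1, hF2⟩ := exists_poly p p d (by omega)
    obtain ⟨P, hP1, hP2⟩ := cycle_of_values p p hp1 F hF2
    refine ⟨F, hF1, P, hP1, ?_⟩
    rw [← hh, hp]
    refine le_trans ?_ (Nat.add_le_add_right hP2 5)
    have e1 : (p + 1) * (2 * p + 2) = 2 * (p * p) + 4 * p + 2 := by ring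
    have e2 : 2 * (2 * p + 1 + 1) ^ 2 = 8 * (p * p) + 16 * p + 8 := by ring
    rw [e1, e2]
    omega

end J4H68.Henon
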