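import Pool.Agent.J4H68.Henon.Cycle

/-!
# The polynomial with the prescribed values at the integers of `[-h, h]`
-/

namespace J4H68.Henon

open Polynomial Function

/-- The interpolation polynomial. -/
noncomputable def P0 (W K : ℕ) : ℚ[X] :=
  Lagrange.interpolate (Finset.Icc (-((W : ℤ) + 1 + K)) ((W : ℤ) + 1 + K)) (fun u : ℤ => (u : ℚ))
    (fun u : ℤ => (g W K u : ℚ))

theorem inj_cast (s : Set ℤ) : Set.InjOn (fun u : ℤ => (u : ℚ)) s :=
  fun a _ b _ h => by simpa using h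

theorem P0_eval (W K : ℕ) (u : ℤ) (h1 : -((W : ℤ) + 1 + K) ≤ u) (h2 : u ≤ (W : ℤ) + 1 + K) :
    (P0 W K).eval (u : ℚ) = (g W K u : ℚ) := by
  have := Lagrange.eval_interpolate_at_node (fun u : ℤ => (g W K u : ℚ))
    (inj_cast (Finset.Icc (-((W : ℤ) + 1 + K)) ((W : ℤ) + 1 + K)))
    (i := u) (Finset.mem_Icc.2 ⟨h1, h2⟩)
  exact this

theorem card_nodes (W K : ℕ) :
    (Finset.Icc (-((W : ℤ) + 1 + K)) ((W : ℤ) + 1 + K)).card = 2 * (W + 1 + K) + 1 := by
  rw [Int.card_Icc]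
  omega

theorem P0_degree (W K : ℕ) : (P0 W K).degree < ((2 * (W + 1 + K) + 1 : ℕ) : WithBot ℕ) := by
  have := Lagrange.degree_interpolate_lt (fun u : ℤ => (g W K u : ℚ))
    (inj_cast (Finset.Icc (-((W : ℤ) + 1 + K)) ((W : ℤ) + 1 + K)))
  rw [card_nodes] at this
  exact this

theorem two_le_choose (n k : ℕ) (h0 : 0 < k) (h1 : k < n) : 2 ≤ n.choose k := by
  obtain ⟨l, rfl⟩ : ∃ l, k = l + 1 := ⟨k - 1, by omega⟩
  obtain ⟨m, rfl⟩ : ∃ m, n = m + 1 := ⟨n - 1, by omega⟩
  rw [Nat.choose_succ_succ, Nat.succ_eq_add_one]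
  have a1 : 0 < m.choose l := Nat.choose_pos (by omega)
  have a2 : 0 < m.choose (l + 1) := Nat.choose_pos (by omega)
  omega

theorem g_cases (W K : ℕ) (u : ℤ) : g W K u = 0 ∨ g W K u = -1 := by
  unfold g
  split_ifs
  · exact Or.inl rfl
  · exact Or.inr rfl

theorem P0_natDegree (W K : ℕ) : (P0 W K).natDegree = 2 * (W + 1 + K) := by
  set n := 2 * (W + 1 + K) with hn
  have hle : (P0 W K).natDegree < n + 1 := by
    have := P0_degree W K
    by_cases h0 : P0 W K = 0
    · rw [h0]; simp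
    · exact (natDegree_lt_iff_degree_lt h0).2 this
  by_contra hne
  have hlt : (P0 W K + 1).natDegree < n := by
    refine lt_of_le_of_lt (natDegree_add_le _ _) ?_
    rw [natDegree_one]
    have : 0 < n := by omega
    exact max_lt (by omega) this
  have h1 := Polynomial.fwdDiff_iter_eq_zero_of_degree_lt hlt
  have h2 := congrFun h1 (-((W : ℚ) + 1 + K))
  rw [fwdDiff_iter_eq_sum_shift, Pi.zero_apply] at h2
  have h3 : ∑ k ∈ Finset.range (n + 1), ((-1 : ℤ) ^ (n - k) * (n.choose k : ℤ)) *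
      (g W K ((k : ℤ) - (W + 1 + K)) + 1) = 0 := by
    have h4 : ((∑ k ∈ Finset.range (n + 1), ((-1 : ℤ) ^ (n - k) * (n.choose k : ℤ)) *
      (g W K ((k : ℤ) - (W + 1 + K)) + 1) : ℤ) : ℚ) = 0 := by
      rw [← h2]
      push_cast
      refine Finset.sum_congr rfl ?_
      intro k hk
      rw [Finset.mem_range] at hk
      have e1 : (-((W : ℚ) + 1 + K) + k • (1 : ℚ)) = (((k : ℤ) - (W + 1 + K) : ℤ) : ℚ) := by
        push_cast
        simp
        ring
      rw [e1, eval_add, eval_one, P0_eval W K _ (by omega) (by omega), zsmul_eq_mul]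
      push_cast
      ring
    exact_mod_cast h4
  rw [Finset.sum_range_succ] at h3
  have hlast : g W K ((n : ℤ) - (W + 1 + K)) = 0 := g_zero (Or.inl (by rw [hn]; push_cast; ring))
  rw [hlast] at h3
  simp only [Nat.sub_self, pow_zero, Nat.choose_self, Nat.cast_one, zero_add,
    mul_one] at h3
  have h5 : ∑ k ∈ Finset.range n, ((-1 : ℤ) ^ (n - k) * (n.choose k : ℤ)) *
      (g W K ((k : ℤ) - (W + 1 + K)) + 1) = (-1) ^ (1 + K) *
      ∑ k ∈ Finset.range n, (n.choose k : ℤ) * (g W K ((k : ℤ) - (W + 1 + K)) + 1) := by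
    rw [Finset.mul_sum]
    refine Finset.sum_congr rfl ?_
    intro k hk
    rw [Finset.mem_range] at hk
    by_cases hz : ((k : ℤ) - (W + 1 + K)) = W + 1 + K ∨ (-(W : ℤ) ≤ ((k : ℤ) - (W + 1 + K)) ∧
        ((k : ℤ) - (W + 1 + K)) ≤ W ∧ (2 : ℤ) ∣ ((k : ℤ) - (W + 1 + K)) - W)
    · have hpar : (-1 : ℤ) ^ (n - k) = (-1) ^ (1 + K) := by
        have : Even ((n - k) + (1 + K)) := by
          rw [Nat.even_iff]
          omega
        have h6 : (-1 : ℤ) ^ ((n - k) + (1 + K)) = 1 := this.neg_one_pow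
        rw [pow_add] at h6
        rcases neg_one_pow_eq_or ℤ (1 + K) with h7 | h7
        · rw [h7] at h6 ⊢
          linarith
        · rw [h7] at h6 ⊢
          linarith
      rw [hpar]
      ring
    · rw [g_neg hz]
      ring
  have h8 : 2 ≤ ∑ k ∈ Finset.range n, (n.choose k : ℤ) * (g W K ((k : ℤ) - (W + 1 + K)) + 1) := by
    have hk0 : 2 * W + 1 + K ∈ Finset.range n := Finset.mem_range.2 (by omega)
    have h9 := Finset.single_le_sum (f := fun k : ℕ => (n.choose k : ℤ) *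
      (g W K ((k : ℤ) - (W + 1 + K)) + 1)) (s := Finset.range n) (fun k _ => by
        rcases g_cases W K ((k : ℤ) - (W + 1 + K)) with h | h
        · rw [h]; simp
        · rw [h]; simp) hk0
    have h10 : g W K (((2 * W + 1 + K : ℕ) : ℤ) - (W + 1 + K)) = 0 :=
      g_zero (Or.inr ⟨by omega, by omega, by omega⟩)
    rw [h10] at h9
    have h11 : (2 : ℤ) ≤ (n.choose (2 * W + 1 + K) : ℤ) := by
      exact_mod_cast two_le_choose n (2 * W + 1 + K) (by omega) (by omega)
    linarith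
  rw [h5] at h3
  rcases neg_one_pow_eq_or ℤ (1 + K) with h7 | h7
  · rw [h7] at h3
    linarith
  · rw [h7] at h3
    linarith

end J4H68.Henon
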